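import Pool.Agent.W680.WH.Stm

/-!
# Project WHH (MP_af71ff_an): the base vector (WHH-HV)
-/

set_option autoImplicit false

open scoped ComplexConjugate InnerProductSpace
open ContinuousLinearMap Filter

namespace Pool.Agent.W577.WH

open Pool.Agent.W680.WH

/-- `(1/4)_n / n!` -/
noncomputable def be (n : ℕ) : ℝ :=
  ∏ i ∈ Finset.range n, ((4 * (i : ℝ) + 1) / (4 * ((i : ℝ) + 1)))

lemma be_zero : be 0 = 1 := by simp [be]

lemma be_succ (n : ℕ) : be (n + 1) = be n * ((4 * (n : ℝ) + 1) / (4 * ((n : ℝ) + 1))) := by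
  unfold be
  rw [Finset.prod_range_succ]

lemma be_nonneg (n : ℕ) : 0 ≤ be n := Finset.prod_nonneg (fun i _ => by positivity)

lemma be_le_one (n : ℕ) : be n ≤ 1 := by
  induction n with
  | zero => simp [be]
  | succ n ih =>
    rw [be_succ]
    have h1 : ((4 * (n : ℝ) + 1) / (4 * ((n : ℝ) + 1))) ≤ 1 := by
      rw [div_le_one (by positivity)]; linarith
    have h2 : 0 ≤ ((4 * (n : ℝ) + 1) / (4 * ((n : ℝ) + 1))) := by positivity
    nlinarith [be_nonneg n]

/-- coefficients of `(1 - r z)^(-1/4)`, extended by zero -/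
noncomputable def cc (r : ℝ) : ℤ → ℝ
  | Int.ofNat n => be n * r ^ n
  | Int.negSucc _ => 0

lemma cc_nat (r : ℝ) (n : ℕ) : cc r (n : ℤ) = be n * r ^ n := rfl

lemma cc_neg (r : ℝ) (i : ℤ) (hi : i < 0) : cc r i = 0 := by
  obtain ⟨n, rfl⟩ := Int.eq_negSucc_of_lt_zero hi
  rfl

lemma cc_zero (r : ℝ) : cc r 0 = 1 := by
  have h := cc_nat r 0
  simp only [Nat.cast_zero, pow_zero, mul_one, be_zero] at h
  exact h

lemma cc_nonneg (r : ℝ) (hr : 0 ≤ r) (i : ℤ) : 0 ≤ cc r i := by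
  rcases lt_or_ge i 0 with h | h
  · rw [cc_neg r i h]
  · obtain ⟨n, rfl⟩ := Int.eq_ofNat_of_zero_le h
    rw [cc_nat]
    exact mul_nonneg (be_nonneg n) (pow_nonneg hr n)

lemma cc_rec (r : ℝ) (i : ℤ) :
    (i : ℝ) * cc r i - r * (((i - 1 : ℤ) : ℝ) * cc r (i - 1)) = r / 4 * cc r (i - 1) := by
  rcases lt_trichotomy i 0 with h | h | h
  · rw [cc_neg r i h, cc_neg r (i - 1) (by omega)]; ring
  · subst h
    rw [cc_neg r (0 - 1) (by omega)]
    simp
  · obtain ⟨n, rfl⟩ : ∃ n : ℕ, i = (n : ℤ) + 1 := ⟨(i - 1).toNat, by omega⟩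
    have h1 : ((n : ℤ) + 1) = ((n + 1 : ℕ) : ℤ) := by push_cast; ring
    rw [add_sub_cancel_right, cc_nat]
    rw [h1, cc_nat, be_succ, pow_succ]
    push_cast
    have : ((n : ℝ) + 1) ≠ 0 := by positivity
    field_simp
    ring

lemma cc_summable (r : ℝ) (hr : 0 ≤ r) (hr1 : r < 1) (p : ℤ → ℝ) (C : ℝ)
    (hp : ∀ n : ℕ, |p n| ≤ C * (1 + (n : ℝ) + (n : ℝ) ^ 2)) :
    Summable fun i => p i * cc r i := by
  have hinj : Function.Injective (fun n : ℕ => (n : ℤ)) := fun a b h => by simpa using h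
  rw [← hinj.summable_iff]
  · have hn : ‖r‖ < 1 := by rw [Real.norm_of_nonneg hr]; exact hr1
    have h0 := summable_pow_mul_geometric_of_norm_lt_one (R := ℝ) 0 hn
    have h1 := summable_pow_mul_geometric_of_norm_lt_one (R := ℝ) 1 hn
    have h2 := summable_pow_mul_geometric_of_norm_lt_one (R := ℝ) 2 hn
    refine Summable.of_norm_bounded (((h0.add h1).add h2).mul_left C) (fun n => ?_)
    have h3 : ((fun i => p i * cc r i) ∘ fun n : ℕ => (n : ℤ)) n = p n * (be n * r ^ n) := rfl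
    rw [h3, norm_mul, Real.norm_eq_abs, Real.norm_of_nonneg
      (mul_nonneg (be_nonneg n) (pow_nonneg hr n))]
    have h4 : be n * r ^ n ≤ r ^ n := by
      have := pow_nonneg hr n
      nlinarith [be_le_one n]
    have h5 : C * ((n : ℝ) ^ 0 * r ^ n + (n : ℝ) ^ 1 * r ^ n + (n : ℝ) ^ 2 * r ^ n)
        = C * (1 + (n : ℝ) + (n : ℝ) ^ 2) * r ^ n := by ring
    rw [h5]
    exact mul_le_mul (hp n) h4 (mul_nonneg (be_nonneg n) (pow_nonneg hr n))
      ((abs_nonneg _).trans (hp n))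
  · intro i hi
    have : i < 0 := by
      by_contra h
      exact hi ⟨i.toNat, by simp; omega⟩
    rw [cc_neg r i this, mul_zero]

/-- correlation -/
noncomputable def cv (u v : ℤ → ℝ) (k : ℤ) : ℝ := ∑' j : ℤ, u (k + j) * v j

lemma sumprod {u v : ℤ → ℝ} (hu : Summable u) (hv : Summable v) (hu0 : ∀ i, 0 ≤ u i)
    (hv0 : ∀ i, 0 ≤ v i) : Summable fun p : ℤ × ℤ => u (p.1 + p.2) * v p.2 := by
  have hprod : Summable fun p : ℤ × ℤ => u p.1 * v p.2 :=
    Summable.mul_of_nonneg hu hv hu0 hv0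
  have hinj : Function.Injective (fun p : ℤ × ℤ => (p.1 + p.2, p.2)) := by
    rintro ⟨a, b⟩ ⟨a', b'⟩ h
    simp only [Prod.mk.injEq] at h ⊢
    omega
  exact hprod.comp_injective hinj

lemma sumcv {u v : ℤ → ℝ} (hu : Summable u) (hv : Summable v) (hu0 : ∀ i, 0 ≤ u i)
    (hv0 : ∀ i, 0 ≤ v i) (k : ℤ) : Summable fun j : ℤ => u (k + j) * v j := by
  have h := sumprod hu hv hu0 hv0
  have hinj : Function.Injective (fun j : ℤ => (k, j)) := by
    intro a b h
    simpa using h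
  exact h.comp_injective hinj

lemma cv_shift (u v : ℤ → ℝ) (k : ℤ) : ∑' j : ℤ, u (k + j) * v (j - 1) = cv u v (k + 1) := by
  unfold cv
  rw [← (Equiv.addRight (1 : ℤ)).tsum_eq (fun j => u (k + j) * v (j - 1))]
  refine tsum_congr (fun j => ?_)
  simp only [Equiv.coe_addRight, add_sub_cancel_right]
  rw [show k + (j + 1) = k + 1 + j by ring]

lemma cv_symm (u : ℤ → ℝ) (k : ℤ) : cv u u (-k) = cv u u k := by
  unfold cv
  rw [← (Equiv.addRight k).tsum_eq (fun j => u (-k + j) * u j)]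
  refine tsum_congr (fun j => ?_)
  simp only [Equiv.coe_addRight]
  rw [show -k + (j + k) = j by ring, show j + k = k + j by ring, mul_comm]

section main

variable (r : ℝ)

/-- `i c_i` -/
noncomputable def xc (i : ℤ) : ℝ := (i : ℝ) * cc r i

/-- the symmetric coefficients -/
noncomputable def ga (k : ℤ) : ℝ := cv (cc r) (cc r) k

/-- auxiliary sum -/
noncomputable def qq (k : ℤ) : ℝ := cv (xc r) (cc r) k

variable {r}

lemma xc_nonneg (hr : 0 ≤ r) (i : ℤ) : 0 ≤ xc r i := by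
  unfold xc
  rcases lt_or_ge i 0 with h | h
  · rw [cc_neg r i h, mul_zero]
  · exact mul_nonneg (by exact_mod_cast h) (cc_nonneg r hr i)

lemma s_cc (hr : 0 ≤ r) (hr1 : r < 1) : Summable (cc r) := by
  have h := cc_summable r hr hr1 (fun _ => 1) 1 (fun n => by
    rw [abs_one, one_mul]
    have : (0 : ℝ) ≤ n := Nat.cast_nonneg n
    nlinarith [sq_nonneg (n : ℝ)])
  simpa using h

lemma s_xc (hr : 0 ≤ r) (hr1 : r < 1) : Summable (xc r) := by
  have h := cc_summable r hr hr1 (fun i => (i : ℝ)) 1 (fun n => by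
    have : (0 : ℝ) ≤ n := Nat.cast_nonneg n
    have h1 : (((n : ℕ) : ℤ) : ℝ) = (n : ℝ) := by push_cast; ring
    rw [h1, abs_of_nonneg this, one_mul]
    nlinarith [sq_nonneg (n : ℝ)])
  exact h

lemma rec1 (hr : 0 ≤ r) (hr1 : r < 1) (k : ℤ) :
    qq r k - r * qq r (k - 1) = r / 4 * ga r (k - 1) := by
  have h1 := sumcv (s_xc hr hr1) (s_cc hr hr1) (xc_nonneg hr) (cc_nonneg r hr) k
  have h2 := sumcv (s_xc hr hr1) (s_cc hr hr1) (xc_nonneg hr) (cc_nonneg r hr) (k - 1)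
  unfold qq ga cv
  rw [← tsum_mul_left, ← tsum_mul_left, ← h1.tsum_sub (h2.mul_left r)]
  refine tsum_congr (fun j => ?_)
  have h3 := cc_rec r (k + j)
  unfold xc
  rw [show k - 1 + j = k + j - 1 by ring]
  linear_combination (cc r j) * h3

lemma rec2 (hr : 0 ≤ r) (hr1 : r < 1) (k : ℤ) :
    (qq r k - k * ga r k) - r * (qq r (k + 1) - ((k + 1 : ℤ) : ℝ) * ga r (k + 1))
      = r / 4 * ga r (k + 1) := by
  have hs : ∀ k : ℤ, cv (cc r) (xc r) k = qq r k - k * ga r k := by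
    intro k
    have h1 := sumcv (s_xc hr hr1) (s_cc hr hr1) (xc_nonneg hr) (cc_nonneg r hr) k
    have h2 := sumcv (s_cc hr hr1) (s_cc hr hr1) (cc_nonneg r hr) (cc_nonneg r hr) k
    unfold qq ga cv
    rw [← tsum_mul_left, ← h1.tsum_sub (h2.mul_left (k : ℝ))]
    refine tsum_congr (fun j => ?_)
    unfold xc
    push_cast
    ring
  rw [← hs, ← hs, ← cv_shift]
  have h3 : ga r (k + 1) = ∑' j : ℤ, cc r (k + j) * cc r (j - 1) := (cv_shift _ _ k).symm
  rw [h3]
  have h1 := sumcv (s_cc hr hr1) (s_xc hr hr1) (cc_nonneg r hr) (xc_nonneg hr) k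
  have h2 := sumcv (s_cc hr hr1) ((s_xc hr hr1).comp_injective
    (sub_left_injective (b := (1 : ℤ)))) (cc_nonneg r hr) (fun i => xc_nonneg hr (i - 1)) k
  have h2' : Summable fun j : ℤ => cc r (k + j) * xc r (j - 1) := h2
  unfold cv
  rw [← tsum_mul_left, ← tsum_mul_left, ← h1.tsum_sub (h2'.mul_left r)]
  refine tsum_congr (fun j => ?_)
  have h3 := cc_rec r j
  unfold xc
  linear_combination (cc r (k + j)) * h3

/-- the coefficients of the base vector up to sign -/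
noncomputable def et (r : ℝ) (k : ℤ) : ℝ := 4 * qq r k + ga r k

lemma et1 (hr : 0 ≤ r) (hr1 : r < 1) (k : ℤ) : et r k - r * et r (k - 1) = ga r k := by
  unfold et
  linear_combination 4 * rec1 hr hr1 k

lemma et2 (hr : 0 ≤ r) (hr1 : r < 1) (k : ℤ) :
    4 * (k : ℝ) * et r k - (4 * (k : ℝ) + 3) * r * et r (k + 1)
      - (4 * (k : ℝ) + 1) * r * et r (k - 1) + (4 * (k : ℝ) + 4) * r ^ 2 * et r k = 0 := by
  have h1 := et1 hr hr1 k
  have h2 := et1 hr hr1 (k + 1)
  rw [add_sub_cancel_right] at h2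
  have h3 := rec2 hr hr1 k
  push_cast at h3
  have h4 : et r k - r * et r (k + 1) = (4 * (k : ℝ) + 1) * ga r k
      - r * (4 * (k : ℝ) + 4) * ga r (k + 1) := by
    unfold et
    linear_combination 4 * h3
  rw [← h1, ← h2] at h4
  linear_combination -h4

lemma ga_nonneg (hr : 0 ≤ r) (k : ℤ) : 0 ≤ ga r k :=
  tsum_nonneg (fun j => mul_nonneg (cc_nonneg r hr _) (cc_nonneg r hr _))

lemma qq_nonneg (hr : 0 ≤ r) (k : ℤ) : 0 ≤ qq r k :=
  tsum_nonneg (fun j => mul_nonneg (xc_nonneg hr _) (cc_nonneg r hr _))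

lemma et_nonneg (hr : 0 ≤ r) (k : ℤ) : 0 ≤ et r k := by
  unfold et
  have := ga_nonneg hr k
  have := qq_nonneg hr k
  positivity

lemma ga_pos (hr : 0 ≤ r) (hr1 : r < 1) : 0 < ga r 0 := by
  have h2 := sumcv (s_cc hr hr1) (s_cc hr hr1) (cc_nonneg r hr) (cc_nonneg r hr) 0
  have h3 := h2.le_tsum 0 (fun j _ => mul_nonneg (cc_nonneg r hr _) (cc_nonneg r hr _))
  rw [add_zero, cc_zero, mul_one] at h3
  exact lt_of_lt_of_le one_pos h3

lemma om_nat_le (n : ℕ) : om (n : ℤ) ≤ 3 * (n : ℝ) + 1 := by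
  induction n with
  | zero => simp [om]
  | succ n ih =>
    have h1 : (((n + 1 : ℕ) : ℤ)) = (n : ℤ) + 1 := by push_cast; ring
    rw [h1, om_succ_nat]
    have h2 : (0 : ℝ) ≤ (4 * (n : ℝ) + 3) / (4 * (n : ℝ) + 1) := by positivity
    have h3 : om (n : ℤ) * ((4 * (n : ℝ) + 3) / (4 * (n : ℝ) + 1))
        ≤ (3 * (n : ℝ) + 1) * ((4 * (n : ℝ) + 3) / (4 * (n : ℝ) + 1)) :=
      mul_le_mul_of_nonneg_right ih h2
    refine h3.trans ?_
    rw [← mul_div_assoc, div_le_iff₀ (by positivity)]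
    push_cast
    have : (0 : ℝ) ≤ n := Nat.cast_nonneg n
    nlinarith

lemma et_summable (hOM : S_OM) (hr : 0 ≤ r) (hr1 : r < 1) :
    Summable fun n => om n * (et r n) ^ 2 := by
  obtain ⟨ho1, -, ho3, -, -⟩ := hOM
  set f : ℤ → ℝ := fun i => om i * (4 * (i : ℝ) + 1) * cc r i with hf
  set g : ℤ → ℝ := fun i => om i * cc r i with hg
  have hf0 : ∀ i, 0 ≤ f i := by
    intro i
    simp only [hf]
    rcases lt_or_ge i 0 with h | h
    · rw [cc_neg r i h, mul_zero]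
    · have : (0 : ℝ) ≤ i := by exact_mod_cast h
      have := cc_nonneg r hr i
      have := om_pos i
      positivity
  have hg0 : ∀ i, 0 ≤ g i := fun i => mul_nonneg (om_pos i).le (cc_nonneg r hr i)
  have hfs : Summable f := by
    refine cc_summable r hr hr1 (fun i => om i * (4 * (i : ℝ) + 1)) 12 (fun n => ?_)
    have h0 : (0 : ℝ) ≤ n := Nat.cast_nonneg n
    have h1 : (((n : ℕ) : ℤ) : ℝ) = (n : ℝ) := by push_cast; ring
    simp only [h1]
    rw [abs_of_nonneg (mul_nonneg (om_pos _).le (by positivity))]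
    have h2 : om (n : ℤ) * (4 * (n : ℝ) + 1) ≤ (3 * (n : ℝ) + 1) * (4 * (n : ℝ) + 1) :=
      mul_le_mul_of_nonneg_right (om_nat_le n) (by positivity)
    nlinarith
  have hgs : Summable g := by
    refine cc_summable r hr hr1 (fun i => om i) 12 (fun n => ?_)
    have h0 : (0 : ℝ) ≤ n := Nat.cast_nonneg n
    rw [abs_of_nonneg (om_pos _).le]
    have := om_nat_le n
    nlinarith
  have hF : Summable fun k : ℤ => ∑' j : ℤ, f (k + j) * g j := (sumprod hfs hgs hf0 hg0).prod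
  have hF0 : ∀ k : ℤ, 0 ≤ ∑' j : ℤ, f (k + j) * g j :=
    fun k => tsum_nonneg (fun j => mul_nonneg (hf0 _) (hg0 _))
  have hle : ∀ k : ℤ, om k * et r k ≤ ∑' j : ℤ, f (k + j) * g j := by
    intro k
    have h1 := sumcv (s_xc hr hr1) (s_cc hr hr1) (xc_nonneg hr) (cc_nonneg r hr) k
    have h2 := sumcv (s_cc hr hr1) (s_cc hr hr1) (cc_nonneg r hr) (cc_nonneg r hr) k
    have h3 : om k * et r k = ∑' j : ℤ, om k * (4 * (xc r (k + j) * cc r j)
        + cc r (k + j) * cc r j) := by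
      rw [tsum_mul_left, (h1.mul_left 4).tsum_add h2, tsum_mul_left]
      rfl
    rw [h3]
    refine (((h1.mul_left 4).add h2).mul_left (om k)).tsum_le_tsum (fun j => ?_)
      (sumcv hfs hgs hf0 hg0 k)
    have h4 : om k ≤ om (k + j) * om j := by
      have h5 := ho3 (k + j) (-j)
      rw [om_neg, add_neg_cancel_right] at h5
      exact h5
    have h6 : om k * (4 * (xc r (k + j) * cc r j) + cc r (k + j) * cc r j)
        = om k * ((4 * xc r (k + j) + cc r (k + j)) * cc r j) := by ring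
    have h7 : f (k + j) * g j = (om (k + j) * om j) *
        ((4 * xc r (k + j) + cc r (k + j)) * cc r j) := by
      simp only [hf, hg, xc]
      ring
    rw [h6, h7]
    refine mul_le_mul_of_nonneg_right h4 (mul_nonneg ?_ (cc_nonneg r hr _))
    have := xc_nonneg hr (k + j)
    have := cc_nonneg r hr (k + j)
    positivity
  refine Summable.of_nonneg_of_le (fun k => mul_nonneg (om_pos k).le (sq_nonneg _)) (fun k => ?_)
    (hF.mul_left (∑' k : ℤ, ∑' j : ℤ, f (k + j) * g j))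
  have h1 := hF.le_tsum k (fun j _ => hF0 j)
  have h2 := hle k
  have h3 := ho1 k
  have h4 := et_nonneg hr k
  have h5 : om k * et r k ^ 2 ≤ (om k * et r k) * (om k * et r k) := by
    have : (om k * et r k) * (om k * et r k) = om k * et r k ^ 2 * om k := by ring
    rw [this]
    have : 0 ≤ om k * et r k ^ 2 := mul_nonneg (om_pos k).le (sq_nonneg _)
    nlinarith
  refine h5.trans ?_
  have h6 : 0 ≤ om k * et r k := mul_nonneg (om_pos k).le h4
  exact mul_le_mul (h2.trans h1) h2 h6 ((hF0 k).trans h1)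

end main

theorem hv (hOM : S_OM) (hOPC : S_OPC) : S_HV := by
  intro r hr hr1
  obtain ⟨-, hZ, -, hZ2, hadd, hsmul, -, -, hinj, -, -, -, hex, -, -, -, -, -⟩ := hOPC
  obtain ⟨h, hh⟩ := hex (fun n => (-1 : ℂ) ^ n * (et r n : ℂ)) (by
    refine (et_summable hOM hr hr1).congr (fun n => ?_)
    rw [norm_mul, norm_zpow, norm_neg, norm_one, one_zpow, one_mul, Complex.norm_real,
      Real.norm_eq_abs, sq_abs])
  refine ⟨h, ?_, ga r, ga_nonneg hr, ga_pos hr hr1, cv_symm _, ?_⟩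
  · refine hinj _ _ (fun n => ?_)
    have hQ : co (Q h) n = co h (n - 1) - ((4 * (n : ℂ) - 3) / (4 * (n : ℂ) - 1)) * co h (n - 1) := by
      have h1 : Q h = Z h + (-1 : ℂ) • Z2 h := by
        rw [Q, ContinuousLinearMap.sub_apply, neg_one_smul, sub_eq_add_neg]
      rw [h1, hadd, hsmul, hZ, hZ2]
      ring
    have hY : ∀ m : ℤ, co ((Z + (r : ℂ) • (1 : E →L[ℂ] E)) h) m = co h (m - 1) + r * co h m := by
      intro m
      rw [ContinuousLinearMap.add_apply, hadd, hZ]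
      have h1 : ((r : ℂ) • (1 : E →L[ℂ] E)) h = (r : ℂ) • h := rfl
      rw [h1, hsmul]
    have hR : co (((1 : E →L[ℂ] E) + (r : ℂ) • Z2) ((Z + (r : ℂ) • (1 : E →L[ℂ] E)) h)) n
        = (co h (n - 1) + r * co h n) + r * (((4 * (n : ℂ) - 3) / (4 * (n : ℂ) - 1)) *
          (co h (n - 1 - 1) + r * co h (n - 1))) := by
      rw [ContinuousLinearMap.add_apply, hadd]
      have h1 : ((r : ℂ) • Z2) ((Z + (r : ℂ) • (1 : E →L[ℂ] E)) h)
          = (r : ℂ) • Z2 ((Z + (r : ℂ) • (1 : E →L[ℂ] E)) h) := rfl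
      have h2 : (1 : E →L[ℂ] E) ((Z + (r : ℂ) • (1 : E →L[ℂ] E)) h)
          = (Z + (r : ℂ) • (1 : E →L[ℂ] E)) h := rfl
      rw [h1, h2, hsmul, hZ2, hY, hY]
    rw [hsmul, hsmul, hQ, hR]
    obtain ⟨k, rfl⟩ : ∃ k : ℤ, n = k + 1 := ⟨n - 1, by ring⟩
    rw [add_sub_cancel_right]
    have e1 : co h k = (-1 : ℂ) ^ k * (et r k : ℂ) := hh k
    have e2 : co h (k + 1) = -((-1 : ℂ) ^ k * (et r (k + 1) : ℂ)) := by
      have := hh (k + 1)
      rw [this, zpow_add_one₀ (by norm_num)]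
      ring
    have e3 : co h (k - 1) = -((-1 : ℂ) ^ k * (et r (k - 1) : ℂ)) := by
      have := hh (k - 1)
      rw [this, zpow_sub_one₀ (by norm_num)]
      norm_num
    rw [e1, e2, e3]
    have h0 : (4 * ((k : ℂ) + 1) - 1) ≠ 0 := by
      intro h0
      have h5 : ((4 * (k + 1) - 1 : ℤ) : ℂ) = 0 := by
        push_cast
        exact h0
      have h6 : (4 * (k + 1) - 1 : ℤ) = 0 := by exact_mod_cast h5
      omega
    have hrec : (4 * (k : ℂ) * (et r k : ℂ) - (4 * (k : ℂ) + 3) * r * (et r (k + 1) : ℂ)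
      - (4 * (k : ℂ) + 1) * r * (et r (k - 1) : ℂ)
      + (4 * (k : ℂ) + 4) * (r : ℂ) ^ 2 * (et r k : ℂ)) = 0 := by
      have := et2 hr hr1 k
      exact_mod_cast this
    push_cast
    have h7 : (4 * ((k : ℂ) + 1) - 3) / (4 * ((k : ℂ) + 1) - 1) * (4 * ((k : ℂ) + 1) - 1)
        = (4 * ((k : ℂ) + 1) - 3) := div_mul_cancel₀ _ h0
    set w := (4 * ((k : ℂ) + 1) - 3) / (4 * ((k : ℂ) + 1) - 1) with hw
    refine mul_right_cancel₀ h0 ?_
    have h8 : (w - 1) * (4 * ((k : ℂ) + 1) - 1) = -2 := by linear_combination h7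
    linear_combination (-(1 - (r : ℂ) ^ 2) * ((-1 : ℂ) ^ k * (et r k : ℂ))
      - (2 / 3) * r * (-((-1 : ℂ) ^ k * (et r (k - 1) : ℂ)) + r * ((-1 : ℂ) ^ k * (et r k : ℂ)))) * h7
      - (2 / 3) * ((-1 : ℂ) ^ k) * hrec
  · intro n
    have h1 : co (h + (r : ℂ) • Z h) n = co h n + r * co h (n - 1) := by
      rw [hadd, hsmul, hZ]
    rw [h1]
    have e1 : co h n = (-1 : ℂ) ^ n * (et r n : ℂ) := hh n
    have e3 : co h (n - 1) = -((-1 : ℂ) ^ n * (et r (n - 1) : ℂ)) := by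
      have := hh (n - 1)
      rw [this, zpow_sub_one₀ (by norm_num)]
      norm_num
    rw [e1, e3]
    have h2 := et1 hr hr1 n
    have h3 : (et r n : ℂ) - r * (et r (n - 1) : ℂ) = (ga r n : ℂ) := by exact_mod_cast h2
    rw [← h3]
    ring

end Pool.Agent.W577.WH
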